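import Pool.Agent.Helper86.AP.Goals

/-!
MP_bec853_al, project AP, packet AP-SEC: the transformed blocks have no bad pairs.
-/

set_option autoImplicit false

namespace Pool.Agent.Helper70.AP

open FreeGroup Pool.Agent.Helper35.PP Pool.Agent.Helper35.PX Pool.Agent.Helper86.AP

section words

variable {α : Type}

theorem chain_cw (R : α × Bool → α × Bool → Prop) (i : α) (m : ℕ) (s : Fin (m + 1) → Bool)
    (b : Fin (m + 1) → List (α × Bool)) :
    (cw i m s b).IsChain R ↔ (∀ k, ((i, s k) :: b k).IsChain R) ∧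
      ∀ (k : ℕ) (hk : k + 1 < m + 1),
        ∀ x ∈ ((i, s ⟨k, Nat.lt_of_succ_lt hk⟩) :: b ⟨k, Nat.lt_of_succ_lt hk⟩).getLast?,
          R x (i, s ⟨k + 1, hk⟩) := by
  unfold cw
  have h0 : [] ∉ List.ofFn fun k => (i, s k) :: b k := by
    intro h
    rw [List.mem_ofFn] at h
    obtain ⟨k, hk⟩ := h
    exact List.cons_ne_nil _ _ hk
  rw [List.isChain_flatten h0, List.isChain_ofFn, List.forall_mem_ofFn_iff]
  refine and_congr Iff.rfl ?_
  refine forall_congr' fun k => forall_congr' fun hk => forall_congr' fun x =>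
    forall_congr' fun _ => ?_
  simp

theorem last_cond {i : α} {w : List (α × Bool)} (hw : ∀ x ∈ w, x.1 ≠ i) (t σ : Bool) :
    (∀ x ∈ ((i, t) :: w).getLast?, x.1 = (i, σ).1 → x.2 = (i, σ).2) ↔ (w = [] → t = σ) := by
  rcases List.eq_nil_or_concat w with rfl | ⟨w', y, rfl⟩
  · simp
  · have e1 : ((i, t) :: (w' ++ [y])).getLast? = some y := by
      rw [← List.cons_append, List.getLast?_concat]
    rw [List.concat_eq_append] at hw ⊢
    rw [e1]
    constructor
    · intro _ h
      simp at h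
    · intro _ x hx h
      rw [Option.mem_def, Option.some.injEq] at hx
      subst hx
      exact absurd h (hw y (by simp))

theorem head_cw (i : α) (m : ℕ) (s : Fin (m + 1) → Bool) (b : Fin (m + 1) → List (α × Bool)) :
    (cw i m s b).head? = some (i, s 0) := by
  unfold cw
  rw [List.ofFn_succ, List.flatten_cons]
  rfl

theorem getLast_cw (i : α) (m : ℕ) (s : Fin (m + 1) → Bool)
    (b : Fin (m + 1) → List (α × Bool)) :
    (cw i m s b).getLast? = ((i, s (Fin.last m)) :: b (Fin.last m)).getLast? := by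
  unfold cw
  rw [List.ofFn_succ', List.concat_eq_append, List.flatten_append, List.flatten_cons,
    List.flatten_nil, List.append_nil]
  rw [List.getLast?_append_of_ne_nil _ (List.cons_ne_nil _ _)]

/-- the word `cw` is cyclically reduced iff the blocks are reduced and the letters do not
cancel -/
theorem cyc_cw {i : α} {m : ℕ} {s : Fin (m + 1) → Bool} {b : Fin (m + 1) → List (α × Bool)}
    (hb : ∀ k, ∀ x ∈ b k, x.1 ≠ i) :
    FreeGroup.IsCyclicallyReduced (cw i m s b) ↔
      (∀ k, FreeGroup.IsReduced (b k)) ∧ ∀ k, b k = [] → s k = s (k + 1) := by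
  have hred : ∀ k, FreeGroup.IsReduced ((i, s k) :: b k) ↔ FreeGroup.IsReduced (b k) := by
    intro k
    unfold FreeGroup.IsReduced
    rw [List.isChain_cons]
    refine ⟨fun h => h.2, fun h => ⟨?_, h⟩⟩
    intro y hy hyi
    exact absurd hyi.symm (hb k y (List.mem_of_mem_head? hy))
  have hlast : (∀ a ∈ (cw i m s b).getLast?, ∀ c ∈ (cw i m s b).head?, a.1 = c.1 → a.2 = c.2) ↔
      (b (Fin.last m) = [] → s (Fin.last m) = s 0) := by
    rw [getLast_cw, head_cw, ← last_cond (hb (Fin.last m))]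
    constructor
    · intro h x hx
      exact h x hx (i, s 0) rfl
    · intro h x hx c hc
      rw [Option.mem_def, Option.some.injEq] at hc
      subst hc
      exact h x hx
  rw [FreeGroup.isCyclicallyReduced_iff, hlast]
  unfold FreeGroup.IsReduced at hred ⊢
  rw [chain_cw]
  constructor
  · rintro ⟨⟨h1, h2⟩, h3⟩
    refine ⟨fun k => (hred k).1 (h1 k), ?_⟩
    intro k hk
    by_cases hkm : k = Fin.last m
    · subst hkm
      rw [Fin.last_add_one]
      exact h3 hk
    · have hlt : (k : ℕ) + 1 < m + 1 := by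
        have := Fin.val_lt_last hkm
        omega
      have h4 := (last_cond (hb k) (s k) (s ⟨k + 1, hlt⟩)).1 (h2 k hlt) hk
      have h5 : k + 1 = ⟨k + 1, hlt⟩ := by
        apply Fin.ext
        rw [Fin.val_add_one_of_lt (Fin.lt_last_iff_ne_last.2 hkm)]
      rw [h5]
      exact h4
  · rintro ⟨h1, h2⟩
    refine ⟨⟨fun k => (hred k).2 (h1 k), ?_⟩, ?_⟩
    · intro k hk
      rw [last_cond (hb ⟨k, Nat.lt_of_succ_lt hk⟩)]
      intro h
      have h3 := h2 ⟨k, Nat.lt_of_succ_lt hk⟩ h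
      have h5 : (⟨k, Nat.lt_of_succ_lt hk⟩ : Fin (m + 1)) + 1 = ⟨k + 1, hk⟩ := by
        apply Fin.ext
        rw [Fin.val_add_one_of_lt (Fin.lt_def.2 (by simp; omega))]
      rw [h5] at h3
      exact h3
    · intro h
      have h3 := h2 (Fin.last m) h
      rw [Fin.last_add_one] at h3
      exact h3

end words

section group

theorem tele {G : Type*} [Group G] (g x : ℕ → G) (n : ℕ) :
    ((List.range n).map fun k => g k * x k * (g (k + 1))⁻¹).prod
      = g 0 * ((List.range n).map x).prod * (g n)⁻¹ := by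
  induction n with
  | zero => simp
  | succ n ih =>
    rw [List.range_succ, List.map_append, List.map_append, List.prod_append, List.prod_append, ih]
    simp only [List.map_cons, List.map_nil, List.prod_cons, List.prod_nil, mul_one]
    group

theorem ofFn_range {β : Type*} (m : ℕ) (f : Fin (m + 1) → β) :
    List.ofFn f = (List.range (m + 1)).map fun k => f (Fin.ofNat (m + 1) k) := by
  apply List.ext_getElem
  · simp
  · intro k h1 h2
    rw [List.getElem_ofFn, List.getElem_map, List.getElem_range]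
    congr 1
    apply Fin.ext
    rw [List.length_ofFn] at h1
    simp [Fin.ofNat, Nat.mod_eq_of_lt h1]

theorem ofNat_succ (m k : ℕ) : Fin.ofNat (m + 1) (k + 1) = Fin.ofNat (m + 1) k + 1 := by
  apply Fin.ext
  rw [Fin.val_add]
  simp [Fin.ofNat]

variable {α : Type}

theorem mk_flatten (L : List (List (α × Bool))) :
    FreeGroup.mk L.flatten = (L.map FreeGroup.mk).prod := by
  induction L with
  | nil => rfl
  | cons x L ih =>
    rw [List.flatten_cons, ← FreeGroup.mul_mk, ih, List.map_cons, List.prod_cons]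

theorem mk_cw (i : α) (m : ℕ) (s : Fin (m + 1) → Bool) (b : Fin (m + 1) → List (α × Bool)) :
    FreeGroup.mk (cw i m s b) = ((List.range (m + 1)).map fun k =>
      el (i, s (Fin.ofNat (m + 1) k)) * FreeGroup.mk (b (Fin.ofNat (m + 1) k))).prod := by
  unfold cw
  rw [mk_flatten, ofFn_range, List.map_map]
  rfl

end group

section main

variable {α : Type} [DecidableEq α]

theorem theta_cw (i : α) (p q : FreeGroup α) (m : ℕ) (s : Fin (m + 1) → Bool)
    (b b' : Fin (m + 1) → List (α × Bool)) (hb : ∀ k, FreeGroup.mk (b k) ∈ ZS i)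
    (hb' : ∀ k, FreeGroup.mk (b' k)
      = (Rf p q (!(s k)))⁻¹ * FreeGroup.mk (b k) * Rf p q (s (k + 1))) :
    theta i p q (FreeGroup.mk (cw i m s b))
      = Rf p q (s 0) * FreeGroup.mk (cw i m s b') * (Rf p q (s 0))⁻¹ := by
  rw [mk_cw, mk_cw, map_list_prod, List.map_map]
  have h := tele (fun k => Rf p q (s (Fin.ofNat (m + 1) k)))
    (fun k => el (i, s (Fin.ofNat (m + 1) k)) * FreeGroup.mk (b' (Fin.ofNat (m + 1) k))) (m + 1)
  have e1 : Fin.ofNat (m + 1) (m + 1) = 0 := by
    apply Fin.ext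
    simp [Fin.ofNat]
  have e0 : Fin.ofNat (m + 1) 0 = 0 := by
    apply Fin.ext
    simp [Fin.ofNat]
  rw [e1, e0] at h
  rw [← h]
  congr 1
  refine List.map_congr_left fun k _ => ?_
  rw [Function.comp_apply, _root_.map_mul, theta_el_i, theta_fix _ _ (hb _), hb', ofNat_succ]
  group

end main

/-- **SEC**. -/
theorem tSEC : S_SEC := by
  intro α _ _ E i hE hK
  obtain ⟨v, hv, u, hu, g, A, B, hl, ⟨xa, hxa, hxa'⟩, ⟨xb, hxb, hxb'⟩⟩ :=
    exists_nondegenerate_leaf E hE hK
  refine ⟨u, hu, v⁻¹, (ZS i).inv_mem hv, A.filter (fun x => x.1 ≠ i),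
    B.filter (fun x => x.1 ≠ i), ⟨?_, ?_, ?_, ?_, ?_, ?_⟩, ?_⟩
  · intro x hx
    exact mem_Zi.2 (Finset.mem_filter.1 hx).2
  · intro x hx
    exact mem_Zi.2 (Finset.mem_filter.1 hx).2
  · exact Finset.disjoint_filter_filter hl.disj
  · rw [Finset.card_le_one]
    intro a ha b hb
    simp only [Finset.mem_sdiff, mem_Zi, Finset.mem_union, Finset.mem_filter, not_or,
      not_and] at ha hb
    apply hl.few a b
    · exact fun h => ha.2.1 h ha.1
    · exact fun h => ha.2.2 h ha.1
    · exact fun h => hb.2.1 h hb.1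
    · exact fun h => hb.2.2 h hb.1
  · exact Finset.card_pos.2 ⟨xa, Finset.mem_filter.2 ⟨hxa, hxa'⟩⟩
  · exact Finset.card_pos.2 ⟨xb, Finset.mem_filter.2 ⟨hxb, hxb'⟩⟩
  · intro m s b hb hc hpos
    have hp : v⁻¹ ∈ ZS i := (ZS i).inv_mem hv
    have hq : u⁻¹ ∈ ZS i := (ZS i).inv_mem hu
    have hR1 : ∀ t : Bool, (if t then u else v⁻¹) = Rf v⁻¹ u⁻¹ (!t) := by
      intro t
      cases t <;> simp [Rf]
    have hR2 : ∀ t : Bool, (if t then v⁻¹ else u) = Rf v⁻¹ u⁻¹ t := by
      intro t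
      cases t <;> simp [Rf]
    have hRm : ∀ t, Rf v⁻¹ u⁻¹ t ∈ ZS i := fun t => Rf_mem hp hq t
    obtain ⟨hbr, hbs⟩ := (cyc_cw hb).1 hc
    have hbZ : ∀ k, FreeGroup.mk (b k) ∈ ZS i := by
      intro k x hx
      rw [toWord_mk, (hbr k).reduce_eq] at hx
      exact hb k x hx
    set b' : Fin (m + 1) → List (α × Bool) := fun k =>
      ((Rf v⁻¹ u⁻¹ (!(s k)))⁻¹ * FreeGroup.mk (b k) * Rf v⁻¹ u⁻¹ (s (k + 1))).toWord with hb'def
    have hb'mk : ∀ k, FreeGroup.mk (b' k)
        = (Rf v⁻¹ u⁻¹ (!(s k)))⁻¹ * FreeGroup.mk (b k) * Rf v⁻¹ u⁻¹ (s (k + 1)) :=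
      fun k => FreeGroup.mk_toWord
    have hb'Z : ∀ k, ∀ x ∈ b' k, x.1 ≠ i := by
      intro k
      exact (ZS i).mul_mem ((ZS i).mul_mem ((ZS i).inv_mem (hRm _)) (hbZ k)) (hRm _)
    have hc' : FreeGroup.IsCyclicallyReduced (cw i m s b') := by
      rw [cyc_cw hb'Z]
      refine ⟨fun k => isReduced_toWord, ?_⟩
      intro k hk
      by_contra hne
      have h1 : s (k + 1) = !(s k) := by
        revert hne
        cases s k <;> cases s (k + 1) <;> simp
      have h2 := hb'mk k
      rw [hk, h1] at h2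
      have h3 : FreeGroup.mk (b k) = 1 := by
        have h4 : FreeGroup.mk (b k) = Rf v⁻¹ u⁻¹ (!(s k)) * ((Rf v⁻¹ u⁻¹ (!(s k)))⁻¹
            * FreeGroup.mk (b k) * Rf v⁻¹ u⁻¹ (!(s k))) * (Rf v⁻¹ u⁻¹ (!(s k)))⁻¹ := by
          group
        rw [← h2] at h4
        rw [h4, ← FreeGroup.one_eq_mk]
        group
      have h5 : b k = [] := by
        have h6 := congrArg FreeGroup.toWord h3
        rw [toWord_mk, (hbr k).reduce_eq, toWord_one] at h6
        exact h6
      exact hne (hbs k h5)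
    have hpos' : PosLine (theta i v u ⁻¹' E) (FreeGroup.mk (cw i m s b')) := by
      have h1 : PosLine (theta i v u ⁻¹' E) (theta i v⁻¹ u⁻¹ (FreeGroup.mk (cw i m s b))) := by
        have h2 : thetaE i v u hv hu (theta i v⁻¹ u⁻¹ (FreeGroup.mk (cw i m s b)))
            = FreeGroup.mk (cw i m s b) := by
          rw [thetaE_apply, theta_theta hp hq]
          simp [theta_one]
        have h3 : PosLine E (thetaE i v u hv hu
            (theta i v⁻¹ u⁻¹ (FreeGroup.mk (cw i m s b)))) := by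
          rw [h2]
          exact hpos
        exact h3.preimage (thetaE i v u hv hu)
      rw [theta_cw i v⁻¹ u⁻¹ m s b b' hbZ hb'mk] at h1
      have h4 := h1.conj (Rf v⁻¹ u⁻¹ (s 0))
      have h5 : (Rf v⁻¹ u⁻¹ (s 0))⁻¹ * (Rf v⁻¹ u⁻¹ (s 0) * FreeGroup.mk (cw i m s b')
          * (Rf v⁻¹ u⁻¹ (s 0))⁻¹) * Rf v⁻¹ u⁻¹ (s 0) = FreeGroup.mk (cw i m s b') := by
        group
      rw [h5] at h4
      exact h4
    have hL := Lang_of_leaf hl hc' hpos'
    have hch := ((chain_cw _ i m s b').1 hL.2).1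
    intro k
    rw [hR1, hR2]
    change b' k ∈ _
    refine ⟨fun x hx => mem_Zi.2 (hb'Z k x hx), ?_⟩
    have h1 := (List.isChain_cons.1 (hch k)).2
    refine h1.imp ?_
    intro x y hxy
    refine ⟨hxy.1, fun h => hxy.2 ⟨(Finset.mem_filter.1 h.1).1, (Finset.mem_filter.1 h.2).1⟩⟩

end Pool.Agent.Helper70.AP
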